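import Pool.Agent.Y558.AM.Amg2

/-!
# Non-absoluteness at every model
-/

set_option autoImplicit false
set_option linter.unreachableTactic false
set_option linter.unusedTactic false

namespace Pool.Agent.Y558.AM

open Pool.Agent.W868
open Pool.Agent.W868.PName
open ZFSet (pair)

theorem countable_sc {ξ : ZFSet.{0}} (h : {x | x ∈ ξ}.Countable) : {x | x ∈ sc ξ}.Countable := by
  have : {x | x ∈ sc ξ} = insert ξ {x | x ∈ ξ} := by
    ext x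
    simp [sc]
  rw [this]
  exact h.insert _

/-- A countable transitive model with a real outside `L(b)`. -/
theorem exists_W {α b : ZFSet.{0}} (hαo : α.IsOrdinal) (hαc : {x | x ∈ α}.Countable)
    (hb : IsInj α ZFSet.omega b) {ξ : ZFSet.{0}} (hξo : ξ.IsOrdinal)
    (hξc : {x | x ∈ ξ}.Countable) :
    ∃ W : Set ZFSet.{0}, W.Countable ∧ IsZF W ∧ IsZFC W ∧ GCH W ∧ α ∈ W ∧ b ∈ W ∧ ξ ∈ W ∧
      ∃ c ∈ W, c ⊆ ZFSet.omega ∧ ∀ ρ ∈ W, ρ.IsOrdinal → c ∉ Lv b ρ := by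
  classical
  have hbs : b ⊆ ZFSet.prod (sc α) ZFSet.omega := by
    intro p hp
    obtain ⟨u, hu, w, hw, rfl⟩ := ZFSet.mem_prod.1 (hb.1.1 hp)
    exact ZFSet.pair_mem_prod.2 ⟨ZFSet.mem_insert_of_mem _ hu, hw⟩
  set T1 : ZFSet.{0} := insert b (b ∪ (ZFSet.sUnion b ∪ (sc α ∪ ZFSet.omega))) with hT1
  have hT1c := countable_tcl hαc hbs
  have hT1t := tcl_trans hαo hbs
  set T0 : ZFSet.{0} := T1 ∪ sc ξ with hT0
  have hT0c : {x | x ∈ T0}.Countable := by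
    have : {x | x ∈ T0} = {x | x ∈ T1} ∪ {x | x ∈ sc ξ} := by
      ext x
      simp [hT0]
    rw [this]
    exact hT1c.union (countable_sc hξc)
  have hT0t : ∀ x ∈ T0, ∀ y ∈ x, y ∈ T0 := by
    intro x hx y hy
    rcases ZFSet.mem_union.1 hx with hx | hx
    · exact ZFSet.mem_union.2 (Or.inl (hT1t x hx y hy))
    · exact ZFSet.mem_union.2 (Or.inr ((isOrdinal_sc hξo).mem_trans hy hx))
  -- the generic extension
  obtain ⟨π, h1, -⟩ := exists_pkg' (insert (Gam (nat 1)) (check '' {x | x ∈ T0}) :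
    Set (PName (Coh (Ty (nat 1) × ℕ)))) ((hT0c.image _).insert _) ⊤
  have hΓ : Gam (nat 1) ∈ π.N := h1 (Or.inl rfl)
  have hTZ : ∀ x ∈ T0, x ∈ π.Z := fun x hx => h1 (Or.inr ⟨x, hx, rfl⟩)
  have hhat := hat_eq_self π hT0t hTZ
  have hT0V : ∀ x ∈ T0, x ∈ π.V := fun x hx => ⟨x, hTZ x hx, hhat x hx⟩
  have hMV := π.isZF_V
  have hMW := π.isZF_W
  have hbV : b ∈ π.V := hT0V b (ZFSet.mem_union.2 (Or.inl (ZFSet.mem_insert _ _)))
  have hαT0 : α ∈ T0 := by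
    rw [hT0, ZFSet.mem_union, hT1, ZFSet.mem_insert_iff, ZFSet.mem_union, ZFSet.mem_union,
      ZFSet.mem_union]
    exact Or.inl (Or.inr (Or.inr (Or.inr (Or.inl (ZFSet.mem_insert _ _)))))
  have hξV0 : ξ ∈ π.V := hT0V ξ (ZFSet.mem_union.2 (Or.inr (ZFSet.mem_insert _ _)))
  have hαV0 : α ∈ π.V := hT0V α hαT0
  have hαW0 : α ∈ π.W := π.V_subset_W hαV0
  -- the new real
  have hΓW : π.val (Gam (nat 1)) ∈ π.W := π.val_mem_W hΓ
  have hBW := hMW.base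
  set c : ZFSet.{0} := ZFSet.sep (fun n => pair ∅ n ∈ π.val (Gam (nat 1))) ZFSet.omega with hc
  have hcW0 : c ∈ π.W := by
    refine hMW.sep_mem (Q := fun n => pair ∅ n ∈ π.val (Gam (nat 1))) ?_ hMW.infinity
    exact Dfn.mem (hBW.pair' (DfnF.const hMW.empty_mem) (DfnF.proj 0)) (DfnF.const hΓW)
  have hcω : c ⊆ ZFSet.omega := fun n hn => (ZFSet.mem_sep.1 hn).1
  have hcV0 : c ∉ π.V := by
    rintro ⟨x, hx, hxc⟩
    refine cohen_new π hΓ (b := nat 0) (x := x) (mem_one_iff.2 rfl) (π.nat_Z 0) hx ?_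
    intro n hn
    rw [hxc, π.hat_nat]
    rw [hc, ZFSet.mem_sep]
    exact ⟨fun h => ⟨hn, h⟩, fun h => h.2⟩
  have hVV0 : LC π.V b ⊆ π.V := LC_subset hMV hbV
  -- the large model
  set A : ZFSet.{0} := b ∪ ZFSet.prod {α} c with hA
  have hAW0 : A ∈ π.W := hMW.union_mem (π.V_subset_W hbV)
    (hMW.prod_mem (hMW.single_mem hαW0) hcW0)
  have hAs : A ⊆ ZFSet.prod (sc α) ZFSet.omega := by
    intro p hp
    rcases ZFSet.mem_union.1 hp with hp | hp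
    · exact hbs hp
    · obtain ⟨u, hu, w, hw, rfl⟩ := ZFSet.mem_prod.1 hp
      rw [ZFSet.mem_singleton] at hu
      exact ZFSet.pair_mem_prod.2 ⟨hu ▸ ZFSet.mem_insert _ _, hcω hw⟩
  set W : Set ZFSet.{0} := LC π.W A with hW
  have hLW : IsLA A W := isLA_of_sub hMW hAW0 hαW0 hαo hAs
  have hZW := hLW.zf
  have hgW := hLW.gc
  have hAW := hLW.mem
  have hαW : α ∈ W := ord_LC hMW hAW0 hαW0 hαo
  have hξW : ξ ∈ W := ord_LC hMW hAW0 (π.V_subset_W hξV0) hξo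
  have hWW0 : W ⊆ π.W := LC_subset hMW hAW0
  have hBW' := hZW.base
  have hbW : b ∈ W := by
    have h2 : ZFSet.sep (fun p => fs p ∈ α) A = b := by
      ext p
      rw [ZFSet.mem_sep, hA, ZFSet.mem_union]
      constructor
      · rintro ⟨hp | hp, h3⟩
        · exact hp
        · obtain ⟨u, hu, w, hw, rfl⟩ := ZFSet.mem_prod.1 hp
          rw [ZFSet.mem_singleton] at hu
          rw [fs_pair, hu] at h3
          exact absurd h3 (ZFSet.mem_irrefl _)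
      · intro hp
        obtain ⟨u, hu, w, hw, rfl⟩ := ZFSet.mem_prod.1 (hb.1.1 hp)
        rw [fs_pair]
        exact ⟨Or.inl hp, hu⟩
    rw [← h2]
    exact hZW.sep_mem (Q := fun p => fs p ∈ α)
      (Dfn.mem (hZW.fs' (DfnF.proj 0)) (DfnF.const hαW)) hAW
  have hcW : c ∈ W := by
    have h2 : ZFSet.sep (fun n => pair α n ∈ A) ZFSet.omega = c := by
      ext n
      rw [ZFSet.mem_sep, hA, ZFSet.mem_union]
      constructor
      · rintro ⟨hn, hp | hp⟩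
        · exact absurd (ZFSet.pair_mem_prod.1 (hb.1.1 hp)).1 (ZFSet.mem_irrefl _)
        · exact (ZFSet.pair_mem_prod.1 hp).2
      · intro hn
        exact ⟨hcω hn, Or.inr (ZFSet.pair_mem_prod.2 ⟨ZFSet.mem_singleton.2 rfl, hn⟩)⟩
    rw [← h2]
    exact hZW.sep_mem (Q := fun n => pair α n ∈ A)
      (Dfn.mem (hBW'.pair' (DfnF.const hαW) (DfnF.proj 0)) (DfnF.const hAW)) hZW.infinity
  obtain ⟨T', hT', hTt', hbT', hTω', -⟩ := exists_T hZW hgW hAW hαW hαo hAs ⟨b, hbW, hb⟩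
  refine ⟨W, π.countable_W.mono hWW0, hZW, isZFC_of_gc hZW hgW,
    gch_of_isLA hLW hT' hTt' hbT' hTω', hαW, hbW, hξW, c, hcW, hcω, fun ρ hρ hρo h => ?_⟩
  exact hcV0 (hVV0 ⟨ρ, π.ord_V hρo (hWW0 hρ), hρo, h⟩)

/-- The models of `φ` of size `ℵ_β` satisfy amalgamation in `M`, for every ordinal `β ≠ 0`. -/
def Good (M : Set ZFSet.{0}) (φ : ZFSet.{0}) : Prop :=
  ∀ β ∈ M, β.IsOrdinal → β ≠ ∅ → (∃ κ, IsAleph M β κ) ∧
    ∀ κ, IsAleph M β κ → (∃ D c, ModK M κ φ D c) ∧ AP M κ φ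

/-- The models of `φ` of size `ℵ_β` do not satisfy amalgamation in `M`, for every ordinal
`β ≠ 0`. -/
def Bad (M : Set ZFSet.{0}) (φ : ZFSet.{0}) : Prop :=
  ∀ β ∈ M, β.IsOrdinal → β ≠ ∅ → (∃ κ, IsAleph M β κ) ∧
    ∀ κ, IsAleph M β κ → (∃ D c, ModK M κ φ D c) ∧ ¬ AP M κ φ

section

variable {M : Set ZFSet.{0}} (hM : IsZF M) (hG : GCH M) {J E a : ZFSet.{0}} (hJ : J ∈ M)
  (hE : E ∈ M) (ha : a ∈ M)
  (hJi : IsInj (ZFSet.prod ZFSet.omega ZFSet.omega) ZFSet.omega J)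
  {Pw : ZFSet.{0}} (hPw : Pw ∈ M)
  (hPw' : ∀ z, z ∈ Pw ↔ z ∈ M ∧ z ⊆ ZFSet.prod ZFSet.omega ZFSet.omega)

include hM hJ hE ha hJi hPw hPw'

theorem good_of_not {ψ : Fml Empty 3} (hSt : ¬ St ψ Pw E a) :
    Good M (cdB J E a (fPhi ψ) Fin.elim0) := fun β hβ hβo _ =>
  ⟨exists_isAleph hM hβ hβo, fun κ hκ => ⟨exists_modK hM hJ hE ha hJi hκ.1,
    ap_of_not2 hM hJ hE ha hJi hPw hPw' hκ.1 hSt⟩⟩

include hG in
theorem bad_of_st {ψ : Fml Empty 3} (hSt : St ψ Pw E a) :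
    Bad M (cdB J E a (fPhi ψ) Fin.elim0) := by
  intro β hβ hβo hβ0
  refine ⟨exists_isAleph hM hβ hβo, fun κ hκ => ⟨exists_modK hM hJ hE ha hJi hκ.1, ?_⟩⟩
  have hβ1 : ∃ γ, γ ∈ β := by
    by_contra h
    exact hβ0 ((ZFSet.eq_empty β).2 fun γ hγ => h ⟨γ, hγ⟩)
  obtain ⟨P, hP, hP'⟩ := hM.power _ hM.infinity
  have hPκ : Inj M Pw κ := Inj.trans hM hPw hκ.1.1.1 (pow_inj hM hJ hJi hP hP' hPw hPw')
    (aleph_pow hM hG hβ1 hκ hP hP')
  exact not_ap2 hM hJ hE ha hJi hPw hPw' hκ.1 hPκ hSt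

end

/-- There are countable transitive models in which a given countable ordinal is countable. -/
theorem exists_V {α : ZFSet.{0}} (hαo : α.IsOrdinal) (hαc : {x | x ∈ α}.Countable) :
    ∃ V : Set ZFSet.{0}, V.Countable ∧ IsZFC V ∧ GCH V ∧ α ∈ V ∧
      ∃ f ∈ V, IsInj α ZFSet.omega f := by
  obtain ⟨b, hb⟩ : ∃ b, IsInj α ZFSet.omega b := by
    refine exists_isInj ?_
    rw [card_omega, ZFSet.card, Cardinal.mk_le_aleph0_iff]
    have h1 : Countable {z // z ∈ α} := hαc.to_subtype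
    exact Countable.of_equiv _ (equivShrink {z // z ∈ α})
  obtain ⟨W, h1, -, h2, h3, h4, h5, -⟩ := exists_W hαo hαc hb (ξ := ∅)
    (by
      have h : (∅ : ZFSet.{0}) ∈ ZFSet.omega := ZFSet.omega_zero
      exact isOrdinal_omega.mem h)
    (by simp)
  exact ⟨W, h1, h2, h3, h4, b, h5, hb⟩

/-- Every countable transitive model of ZFC and GCH disagrees with another one. -/
theorem everyModel {V : Set ZFSet.{0}} (hVc : V.Countable) (hV : IsZFC V) (hG : GCH V)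
    {α : ZFSet.{0}} (hα : α ∈ V) (hαo : α.IsOrdinal) (hαω : ∃ f ∈ V, IsInj α ZFSet.omega f) :
    ∃ W : Set ZFSet.{0}, W.Countable ∧ IsZFC W ∧ GCH W ∧ α ∈ W ∧
      (∃ f ∈ W, IsInj α ZFSet.omega f) ∧ ∃ φ ∈ V, φ ∈ W ∧ IsSentence V φ ∧ IsSentence W φ ∧
        ((Bad V φ ∧ Good W φ) ∨ (Good V φ ∧ Bad W φ ∧ W ⊆ V)) := by
  have hM := hV.toIsZF
  obtain ⟨b, hbV, hb⟩ := hαω
  have hbs : b ⊆ ZFSet.prod (sc α) ZFSet.omega := by
    intro p hp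
    obtain ⟨u, hu, w, hw, rfl⟩ := ZFSet.mem_prod.1 (hb.1.1 hp)
    exact ZFSet.pair_mem_prod.2 ⟨ZFSet.mem_insert_of_mem _ hu, hw⟩
  -- the inner model
  have hL : IsLA b (LC V b) := isLA_of_sub hM hbV hα hαo hbs
  have hZ := hL.zf
  have hg := hL.gc
  have hbL := hL.mem
  have hαL : α ∈ LC V b := ord_LC hM hbV hα hαo
  have hLV : LC V b ⊆ V := LC_subset hM hbV
  obtain ⟨T, hT, hTt, hbT, hTω, hωT⟩ := exists_T hZ hg hbL hαL hαo hbs ⟨b, hbL, hb⟩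
  obtain ⟨i, hi, hib⟩ := exists_enum hZ hT hTω hωT
  obtain ⟨-, i2, -⟩ := bij_ap hib
  obtain ⟨a, ha, hab⟩ := i2 b hbT
  obtain ⟨J, hJ, hJi⟩ := sq_inj hZ hZ.infinity isOrdinal_omega fun _ h => h
  have hE : E0 i ∈ LC V b := E0_mem hZ hi
  have haL : a ∈ LC V b := hZ.trans _ hZ.infinity _ ha
  obtain ⟨Pw, hPw, hPw'⟩ := hM.power _ (hM.prod_mem hM.infinity hM.infinity)
  by_cases hSt : St psi0 Pw (E0 i) a
  · -- all reals of `V` are in `L(b)`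
    obtain ⟨ξ1, h1, h1o, h1L⟩ := hJ
    obtain ⟨ξ2, h2, h2o, h2L⟩ := hi
    obtain ⟨ξ, hξ, hξo, hJξ, hiξ⟩ : ∃ ξ ∈ V, ξ.IsOrdinal ∧ J ∈ Lv b ξ ∧ i ∈ Lv b ξ := by
      rcases h1o.mem_trichotomous h2o with h | h | h
      · exact ⟨ξ2, h2, h2o, Lv_mono (h2o.subset_of_mem h) h1L, h2L⟩
      · exact ⟨ξ2, h2, h2o, h ▸ h1L, h2L⟩
      · exact ⟨ξ1, h1, h1o, h1L, Lv_mono (h1o.subset_of_mem h) h2L⟩
    obtain ⟨W, hWc, hWZ, hWC, hWG, hαW, hbW, hξW, c, hcW, hcω, hcn⟩ := exists_W hαo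
      (hVc.mono fun x hx => hM.trans _ hα _ hx) hb hξo
      (hVc.mono fun x hx => hM.trans _ hξ _ hx)
    have hLW : Lv b ξ ∈ W := Lv_mem_M hWZ hbW hξW
    have hJW : J ∈ W := hWZ.trans _ hLW _ hJξ
    have hiW : i ∈ W := hWZ.trans _ hLW _ hiξ
    have hEW : E0 i ∈ W := E0_mem hWZ hiW
    have haW : a ∈ W := hWZ.trans _ hWZ.infinity _ ha
    have hJV : J ∈ V := hLV ⟨ξ1, h1, h1o, h1L⟩
    obtain ⟨Pw2, hPw2, hPw2'⟩ := hWZ.power _ (hWZ.prod_mem hWZ.infinity hWZ.infinity)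
    refine ⟨W, hWc, hWC, hWG, hαW, ⟨b, hbW, hb⟩, cdB J (E0 i) a (fPhi psi0) Fin.elim0,
      cdB_mem hM hJV (hLV hE) (hLV haL) _, cdB_mem hWZ hJW hEW haW _,
      isSentence_cdB hM hJV (hLV hE) (hLV haL) hJi _, isSentence_cdB hWZ hJW hEW haW hJi _,
      Or.inl ⟨bad_of_st hM hG hJV (hLV hE) (hLV haL) hJi hPw hPw' hSt,
        good_of_not hWZ hJW hEW haW hJi hPw2 hPw2' fun hSt' => ?_⟩⟩
    obtain ⟨ρ, h2, h3, h4⟩ := st_imp hWZ hTt hiW hib hab hPw2' hSt' hcW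
      (fun n hn => hωT (hcω hn))
    exact hcn ρ h2 h3 h4
  · -- the inner model disagrees
    obtain ⟨Pw2, hPw2, hPw2'⟩ := hZ.power _ (hZ.prod_mem hZ.infinity hZ.infinity)
    have hGL : GCH (LC V b) := gch_of_isLA hL hT hTt hbT hTω
    refine ⟨LC V b, hVc.mono hLV, isZFC_of_gc hZ hg, hGL, hαL, ⟨b, hbL, hb⟩,
      cdB J (E0 i) a (fPhi psi0) Fin.elim0,
      cdB_mem hM (hLV hJ) (hLV hE) (hLV haL) _, cdB_mem hZ hJ hE haL _,
      isSentence_cdB hM (hLV hJ) (hLV hE) (hLV haL) hJi _, isSentence_cdB hZ hJ hE haL hJi _,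
      Or.inr ⟨good_of_not hM (hLV hJ) (hLV hE) (hLV haL) hJi hPw hPw' hSt,
        bad_of_st hZ hGL hJ hE haL hJi hPw2 hPw2'
          (st_true hL hT hTt hbT hTω hωT hi hib ha hab hPw2'), hLV⟩⟩

end Pool.Agent.Y558.AM
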